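import Mathlib

/-!
# The UCT problem: rational algebras and algebras of prime exponent
-/

set_option autoImplicit false

namespace Pool.Agent.X264.UC

universe u

/-- Separable nuclear C*-algebras, with the universal coefficient theorem, unital Kirchberg algebras,
vanishing K-theory, tensor products, the universal UHF algebra `M_ℚ`,
the Cuntz algebras `cuntz n = O_(n+1)`, the mapping cone `D` of `ℂ → M_ℚ`, isomorphisms, exact triangles
(up to suspensions)
of the category `KK`, and the relation `kill n A`: `n · KK(A, B) = 0` for all `B`. -/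
structure Theory where
  Alg : Type u
  UCT : Alg → Prop
  Kirchberg : Alg → Prop
  Null : Alg → Prop
  Iso : Alg → Alg → Prop
  Tri : Alg → Alg → Alg → Prop
  kill : ℕ → Alg → Prop
  tens : Alg → Alg → Alg
  MQ : Alg
  cuntz : ℕ → Alg
  D : Alg

namespace Theory

variable (T : Theory.{u})

/-- `A` is isomorphic to `A ⊗ M_ℚ`. -/
def IsRational (A : T.Alg) : Prop := T.Iso A (T.tens A T.MQ)

/-- `p · KK(A, -) = 0` for some prime number `p`. -/
def HasPrimeExponent (A : T.Alg) : Prop := ∃ p : ℕ, p.Prime ∧ T.kill p A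

/-- The UCT holds for the third vertex of an exact triangle if it holds for the two others. -/
def TwoOfThree : Prop :=
  ∀ A B C, T.Tri A B C → (T.UCT A → T.UCT B → T.UCT C) ∧ (T.UCT B → T.UCT C → T.UCT A) ∧
    (T.UCT A → T.UCT C → T.UCT B)

/-- `A ⊗ O_(n+1)` is the cone of `n` on `A`; the octahedral axiom for `m n = m · n`; `O_2` is
KK-contractible. -/
def HasMoore : Prop :=
  (∀ A, T.UCT (T.tens A (T.cuntz 1))) ∧ ∀ A m n, 0 < m → 0 < n →
    T.Tri (T.tens A (T.cuntz m)) (T.tens A (T.cuntz (m * n))) (T.tens A (T.cuntz n))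

/-- The triangle `A → A ⊗ M_ℚ → A ⊗ D`. -/
def HasRationalTriangle : Prop := ∀ A, T.Tri A (T.tens A T.MQ) (T.tens A T.D)

/-- `A ⊗ D` is the inductive limit of algebras KK-equivalent to (suspensions of) the `A ⊗ O_(n!+1)`. -/
def HasLimit : Prop :=
  ∀ A, (∀ n : ℕ, T.UCT (T.tens A (T.cuntz n.factorial))) → T.UCT (T.tens A T.D)

/-- The tensor products of a unital Kirchberg algebra with vanishing K-theory with `M_ℚ` and `O_(p+1)`
are unital Kirchberg algebras with vanishing K-theory; the first is rational, the second is killed by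
`p`. -/
def HasTensor : Prop :=
  ∀ A, T.Kirchberg A → T.Null A →
    (T.Kirchberg (T.tens A T.MQ) ∧ T.Null (T.tens A T.MQ) ∧ T.IsRational (T.tens A T.MQ)) ∧
      ∀ p : ℕ, p.Prime → T.Kirchberg (T.tens A (T.cuntz p)) ∧ T.Null (T.tens A (T.cuntz p)) ∧
        T.kill p (T.tens A (T.cuntz p))

/-- Kirchberg: the UCT for all separable nuclear C*-algebras is equivalent to `A ≅ O_2` for all unital
Kirchberg algebras `A` with vanishing K-theory, and for such an `A` the UCT is equivalent to
`A ≅ O_2`. -/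
def HasKirchberg : Prop :=
  ((∀ A, T.UCT A) ↔ ∀ A, T.Kirchberg A → T.Null A → T.Iso A (T.cuntz 1)) ∧
    ∀ A, T.Kirchberg A → T.Null A → (T.UCT A ↔ T.Iso A (T.cuntz 1))

/-- The facts which are used. -/
structure IsKnown : Prop where
  triangles : T.TwoOfThree
  moore : T.HasMoore
  rational : T.HasRationalTriangle
  limit : T.HasLimit
  tensor : T.HasTensor
  kirchberg : T.HasKirchberg

variable {T}

/-- the UCT for `A ⊗ M_ℚ` and for all `A ⊗ O_(p+1)` implies the UCT for `A` -/
theorem uct_of_primes (hT : T.IsKnown) (A : T.Alg) (hQ : T.UCT (T.tens A T.MQ))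
    (hp : ∀ p : ℕ, p.Prime → T.UCT (T.tens A (T.cuntz p))) : T.UCT A := by
  have h1 : ∀ n : ℕ, 0 < n → T.UCT (T.tens A (T.cuntz n)) := by
    intro n
    induction n using Nat.recOnMul with
    | zero => exact fun h => absurd h (lt_irrefl 0)
    | one => exact fun _ => hT.moore.1 A
    | prime p hpp => exact fun _ => hp p hpp
    | mul a b iha ihb =>
      intro hab
      have ha : 0 < a := Nat.pos_of_mul_pos_right hab
      have hb : 0 < b := Nat.pos_of_mul_pos_left hab
      exact (hT.triangles _ _ _ (hT.moore.2 A a b ha hb)).2.2 (iha ha) (ihb hb)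
  have h2 : T.UCT (T.tens A T.D) := hT.limit A fun n => h1 _ n.factorial_pos
  exact (hT.triangles _ _ _ (hT.rational A)).2.1 hQ h2

/-- reduction of the UCT problem -/
theorem main (hT : T.IsKnown) :
    (∀ A, T.UCT A) ↔ ∀ A, T.Kirchberg A → T.Null A → T.IsRational A ∨ T.HasPrimeExponent A →
      T.Iso A (T.cuntz 1) := by
  rw [hT.kirchberg.1]
  refine ⟨fun h A hA hN _ => h A hA hN, fun h A hA hN => ?_⟩
  rw [← hT.kirchberg.2 A hA hN]
  obtain ⟨⟨h1, h2, h3⟩, h4⟩ := hT.tensor A hA hN
  refine uct_of_primes hT A ((hT.kirchberg.2 _ h1 h2).2 (h _ h1 h2 (Or.inl h3))) fun p hp => ?_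
  obtain ⟨h5, h6, h7⟩ := h4 p hp
  exact (hT.kirchberg.2 _ h5 h6).2 (h _ h5 h6 (Or.inr ⟨p, hp, h7⟩))

end Theory

end Pool.Agent.X264.UC
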